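import Mathlib
import Pool.Agent.H381R3.Space

set_option autoImplicit false

/-!
# MP_f9bcb0_lc : a Rothberger space that is not omega-Rothberger, in ZFC
-/

namespace Pool.Agent.Results.MP_f9bcb0_lc.RothbergerNotOmega

open Set

/-- A family of open sets whose union is the whole space. -/
def IsOpenCover {X : Type} [TopologicalSpace X] (C : Set (Set X)) : Prop :=
  (∀ U ∈ C, IsOpen U) ∧ ⋃₀ C = univ

/-- An open cover that does not contain the whole space as a member and such that every finite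
set is contained in some member. -/
def IsOmegaCover {X : Type} [TopologicalSpace X] (C : Set (Set X)) : Prop :=
  IsOpenCover C ∧ (univ : Set X) ∉ C ∧ ∀ F : Set X, F.Finite → ∃ U ∈ C, F ⊆ U

/-- `S_1(O, O)`. -/
def Rothberger (X : Type) [TopologicalSpace X] : Prop :=
  ∀ C : ℕ → Set (Set X), (∀ n, IsOpenCover (C n)) →
    ∃ U : ℕ → Set X, (∀ n, U n ∈ C n) ∧ IsOpenCover (range U)

/-- `S_1(Ω, Ω)`. -/
def OmegaRothberger (X : Type) [TopologicalSpace X] : Prop :=
  ∀ C : ℕ → Set (Set X), (∀ n, IsOmegaCover (C n)) →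
    ∃ U : ℕ → Set X, (∀ n, U n ∈ C n) ∧ IsOmegaCover (range U)

/-- There is (in ZFC) a Hausdorff space with a base of clopen sets that is Rothberger but not
omega-Rothberger. -/
theorem result : ∃ (X : Type) (_ : TopologicalSpace X),
    T2Space X ∧ (∀ (x : X) (U : Set X), IsOpen U → x ∈ U → ∃ V, IsClopen V ∧ x ∈ V ∧ V ⊆ U) ∧
    Rothberger X ∧ ¬ OmegaRothberger X := by
  classical
  let W : Type := (Cardinal.aleph 1 : Cardinal.{0}).ord.ToType
  have hu : ¬ (univ : Set W).Countable := by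
    rw [countable_univ_iff, ← Cardinal.mk_le_aleph0_iff]
    simp only [W, Cardinal.mk_ord_toType]
    exact not_le.2 Cardinal.aleph0_lt_aleph_one
  have hc : ∀ a : W, (Iio a).Countable := by
    intro a
    rw [← Cardinal.le_aleph0_iff_set_countable]
    have h1 := Cardinal.mk_Iio_toType_ord_lt (c := Cardinal.aleph 1) a
    have h3 : ∀ k : Cardinal.{0}, k < Cardinal.aleph 1 → k ≤ Cardinal.aleph0 := by
      intro k hk
      have h2 : (Cardinal.aleph 1 : Cardinal.{0}) = Order.succ Cardinal.aleph0 := by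
        simp
      rw [h2] at hk
      exact Order.lt_succ_iff.1 hk
    exact h3 _ h1
  obtain ⟨e, hfin, he⟩ := Helper996.Dowker.exists_coherent (W := W) hc
  refine ⟨H381R3.Roth.Pt e, inferInstance, H381R3.Roth.t2,
    fun x U hU hx => H381R3.Roth.clopen_base x U hU hx, ?_, ?_⟩
  · intro C hC
    obtain ⟨U, hU1, hU2⟩ := H381R3.Roth.rothberger_core hc hu hfin he C hC
    refine ⟨U, hU1, ?_, ?_⟩
    · rintro _ ⟨n, rfl⟩
      exact (hC n).1 _ (hU1 n)
    · rw [sUnion_range]
      exact hU2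
  · intro hΩ
    choose A B hA hB hxA hyB hAB using
      fun x y : H381R3.Roth.Pt e => H381R3.Roth.transverse hc he x y
    let F : Set (Set (H381R3.Roth.Pt e)) := {U | IsOpen U ∧ (H381R3.Roth.diag U U).Countable}
    have hfinite : ∀ S : Set (H381R3.Roth.Pt e), S.Finite → ∃ U ∈ F, S ⊆ U := by
      intro S hS
      refine ⟨⋃ x ∈ S, ⋂ y ∈ S, (A x y ∩ B y x), ⟨?_, ?_⟩, ?_⟩
      · refine isOpen_biUnion fun x _ => hS.isOpen_biInter fun y _ => ?_
        exact (hA x y).inter (hB y x)
      · have h1 : (⋃ x ∈ S, ⋃ y ∈ S, H381R3.Roth.diag (A x y) (B x y)).Countable :=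
          hS.countable.biUnion fun x _ => hS.countable.biUnion fun y _ => hAB x y
        refine h1.mono ?_
        rintro t ⟨k1, k2⟩
        obtain ⟨x, hx, k3⟩ := mem_iUnion₂.1 k1
        obtain ⟨y, hy, k4⟩ := mem_iUnion₂.1 k2
        refine mem_biUnion hx (mem_biUnion hy ⟨?_, ?_⟩)
        · exact (mem_iInter₂.1 k3 y hy).1
        · exact (mem_iInter₂.1 k4 x hx).2
      · intro x hx
        exact mem_biUnion hx (mem_iInter₂.2 fun y _ => ⟨hxA x y, hyB y x⟩)
    have hΩc : IsOmegaCover F := by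
      refine ⟨⟨fun U hU => hU.1, ?_⟩, ?_, hfinite⟩
      · refine eq_univ_of_forall fun x => ?_
        obtain ⟨U, hU, hxU⟩ := hfinite {x} (finite_singleton x)
        exact ⟨U, hU, hxU rfl⟩
      · intro h
        refine H381R3.Roth.uncountable_nodes (e := e) hc hu (h.2.mono fun t _ => ?_)
        exact ⟨mem_univ _, mem_univ _⟩
    obtain ⟨U, hU1, hU2⟩ := hΩ (fun _ => F) (fun _ => hΩc)
    refine H381R3.Roth.uncountable_nodes (e := e) hc hu ?_
    have h1 : (⋃ n, H381R3.Roth.diag (U n) (U n)).Countable :=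
      countable_iUnion fun n => (hU1 n).2
    refine h1.mono fun t _ => ?_
    obtain ⟨V, ⟨n, rfl⟩, hV⟩ := hU2.2.2 {H381R3.Roth.mkPt t false, H381R3.Roth.mkPt t true}
      (by simp)
    exact mem_iUnion.2 ⟨n, hV (by simp), hV (by simp)⟩

end Pool.Agent.Results.MP_f9bcb0_lc.RothbergerNotOmega
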